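import Pool.Agent.H.MP_930073_lc.A

namespace Pool.Agent.Results.MP_930073_lc.Counter

open Pool.Agent.H.MP_930073_lc

theorem result :
    ∃ (V : Type) (_ : TopologicalSpace V) (_ : PolishSpace V) (_ : MeasurableSpace V)
      (_ : BorelSpace V) (T G H : V → V → Prop),
      IsAnalyticQO T ∧ IsAnalyticQO G ∧ IsAnalyticQO H ∧
      (∀ x y, G x y → G y x) ∧ (∀ x y, H x y → H y x) ∧
      (∀ x y, G x y → T x y ∧ T y x) ∧ (∀ x y, H x y → T x y ∧ T y x) ∧
      InvUniversal T H ∧ BorelRed G H ∧ ¬ InvUniversal T G :=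
  ⟨X, inferInstance, inferInstance, inferInstance, inferInstance, S, E, F, qo_S, qo_E, qo_F,
    fun _ _ h => h.symm, fun _ _ h => ⟨h.1.symm, h.2.symm⟩, fun _ _ h => h, fun _ _ h => h.2,
    univ_F, red_EF, not_univ_E⟩

end Pool.Agent.Results.MP_930073_lc.Counter
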